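import Pool.Agent.H27.G.R_seed8.H370R2.Defs

open Complex Filter Topology Set MeasureTheory Metric

namespace H370
namespace Loc

lemma order_ne_top {f : ℂ → ℂ} {K : Set ℂ} (hK : IsPreconnected K)
    (hf : AnalyticOnNhd ℂ f K) {c z : ℂ} (hcK : c ∈ K) (hc : f c ≠ 0) (hz : z ∈ K) :
    analyticOrderAt f z ≠ ⊤ := by
  refine hf.analyticOrderAt_ne_top_of_isPreconnected hK hcK hz ?_
  rw [(hf c hcK).analyticOrderAt_eq_zero.mpr hc]
  exact ENat.zero_ne_top

lemma divisor_eq {f : ℂ → ℂ} {K : Set ℂ} (hK : IsPreconnected K)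
    (hf : AnalyticOnNhd ℂ f K) {c z : ℂ} (hcK : c ∈ K) (hc : f c ≠ 0) (hz : z ∈ K) :
    MeromorphicOn.divisor f K z = (mult f z : ℤ) := by
  have h := order_ne_top hK hf hcK hc hz
  rw [MeromorphicOn.AnalyticOnNhd.divisor_apply hf hz]
  unfold mult
  rw [← Nat.cast_analyticOrderNatAt h]
  simp

lemma mult_pos {f : ℂ → ℂ} {K : Set ℂ} (hK : IsPreconnected K)
    (hf : AnalyticOnNhd ℂ f K) {c z : ℂ} (hcK : c ∈ K) (hc : f c ≠ 0) (hz : z ∈ K) :
    0 < mult f z ↔ f z = 0 := by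
  have h := order_ne_top hK hf hcK hc hz
  unfold mult
  rw [Nat.pos_iff_ne_zero, ← (hf z hz).analyticOrderAt_ne_zero, ← Nat.cast_analyticOrderNatAt h]
  simp

/-- Jensen's inequality for multiplicities over a finite set in the smaller ball -/
lemma jensen_mult {f : ℂ → ℂ} {c : ℂ} {r R M : ℝ} (hr : 0 < r) (hrR : r < R) (hM : 1 ≤ M)
    (hf : AnalyticOnNhd ℂ f (closedBall c R)) (hc : f c ≠ 0)
    (hb : ∀ z ∈ closedBall c R, ‖f z‖ ≤ M) (S : Finset ℂ) (hS : ∀ z ∈ S, z ∈ closedBall c r) :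
    ∑ z ∈ S, (mult f z : ℝ) ≤ Real.log (M / ‖f c‖) / Real.log (R / r) := by
  have hR : 0 < R := hr.trans hrR
  have habsR : |R| = R := abs_of_pos hR
  have habsr : |r| = r := abs_of_pos hr
  have hK : IsPreconnected (closedBall c r) := (convex_closedBall c r).isPreconnected
  have hfr : AnalyticOnNhd ℂ f (closedBall c r) := hf.mono (closedBall_subset_closedBall hrR.le)
  have hcr : c ∈ closedBall c r := mem_closedBall_self hr.le
  have key := AnalyticOnNhd.sum_divisor_le (c := c) (r := r) (R := R) (M := M) (f := f)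
    (by rw [habsr]; exact hr) (by rw [habsr, habsR]; exact hrR) hM (by rw [habsR]; exact hf) hc
    (by
      rw [habsR]
      intro z hz
      exact hb z (sphere_subset_closedBall hz))
  refine le_trans ?_ key
  rw [habsr]
  have hfin : (Function.support (MeromorphicOn.divisor f (closedBall c r))).Finite :=
    (MeromorphicOn.divisor f (closedBall c r)).finiteSupport (isCompact_closedBall c r)
  have hnn : ∀ u, 0 ≤ MeromorphicOn.divisor f (closedBall c r) u := fun u => by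
    by_cases hu : u ∈ closedBall c r
    · rw [divisor_eq hK hfr hcr hc hu]; positivity
    · rw [Function.locallyFinsuppWithin.apply_eq_zero_of_notMem _ hu]
  have h1 : ∑ z ∈ S, (mult f z : ℤ) ≤ ∑ᶠ u, MeromorphicOn.divisor f (closedBall c r) u := by
    have h2 : ∑ z ∈ S, (mult f z : ℤ) = ∑ z ∈ S, MeromorphicOn.divisor f (closedBall c r) z :=
      Finset.sum_congr rfl fun z hz => (divisor_eq hK hfr hcr hc (hS z hz)).symm
    rw [h2, finsum_eq_sum_of_support_subset (s := hfin.toFinset ∪ S) _ (by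
      intro x hx; simp only [Finset.coe_union, Set.Finite.coe_toFinset, mem_union]; exact Or.inl hx)]
    exact Finset.sum_le_sum_of_subset_of_nonneg Finset.subset_union_right fun u _ _ => hnn u
  exact_mod_cast h1

/-- product over a multiset of roots -/
noncomputable def Pf (s : Multiset ℂ) (z : ℂ) : ℂ := (s.map (fun ρ => z - ρ)).prod

lemma Pf_zero (z : ℂ) : Pf 0 z = 1 := by simp [Pf]

lemma Pf_cons (ρ : ℂ) (s : Multiset ℂ) (z : ℂ) : Pf (ρ ::ₘ s) z = (z - ρ) * Pf s z := by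
  simp [Pf]

lemma Pf_diff (s : Multiset ℂ) : Differentiable ℂ (Pf s) := by
  induction s using Multiset.induction_on with
  | empty => 
    have : Pf 0 = fun _ => (1 : ℂ) := funext Pf_zero
    rw [this]; exact differentiable_const _
  | cons ρ s ih =>
    have : Pf (ρ ::ₘ s) = fun z => (z - ρ) * Pf s z := funext (Pf_cons ρ s)
    rw [this]
    exact (differentiable_id.sub_const ρ).mul ih

lemma Pf_ne_zero {s : Multiset ℂ} {z : ℂ} (h : ∀ ρ ∈ s, z ≠ ρ) : Pf s z ≠ 0 := by
  induction s using Multiset.induction_on with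
  | empty => rw [Pf_zero]; exact one_ne_zero
  | cons ρ s ih =>
    rw [Pf_cons]
    exact mul_ne_zero (sub_ne_zero.2 (h ρ (Multiset.mem_cons_self ρ s)))
      (ih fun ρ' h' => h ρ' (Multiset.mem_cons_of_mem h'))

lemma Pf_norm_ge {s : Multiset ℂ} {z : ℂ} {a : ℝ} (ha : 0 ≤ a) (h : ∀ ρ ∈ s, a ≤ ‖z - ρ‖) :
    a ^ (Multiset.card s) ≤ ‖Pf s z‖ := by
  induction s using Multiset.induction_on with
  | empty => simp [Pf_zero]
  | cons ρ s ih =>
    rw [Pf_cons, Multiset.card_cons, pow_succ, norm_mul, mul_comm]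
    exact mul_le_mul (h ρ (Multiset.mem_cons_self ρ s))
      (ih fun ρ' h' => h ρ' (Multiset.mem_cons_of_mem h')) (by positivity) (norm_nonneg _)

lemma Pf_norm_le {s : Multiset ℂ} {z : ℂ} {a : ℝ} (h : ∀ ρ ∈ s, ‖z - ρ‖ ≤ a) :
    ‖Pf s z‖ ≤ a ^ (Multiset.card s) := by
  induction s using Multiset.induction_on with
  | empty => simp [Pf_zero]
  | cons ρ s ih =>
    have h1 := h ρ (Multiset.mem_cons_self ρ s)
    have ha : 0 ≤ a := (norm_nonneg _).trans h1
    rw [Pf_cons, Multiset.card_cons, pow_succ, norm_mul, mul_comm]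
    exact mul_le_mul (ih fun ρ' h' => h ρ' (Multiset.mem_cons_of_mem h')) h1
      (norm_nonneg _) (by positivity)

lemma Pf_logDeriv {s : Multiset ℂ} {z : ℂ} {δ : ℝ} (hδ : 0 < δ) (h : ∀ ρ ∈ s, δ ≤ ‖z - ρ‖) :
    ‖logDeriv (Pf s) z‖ ≤ (Multiset.card s : ℝ) / δ := by
  induction s using Multiset.induction_on with
  | empty =>
    have : Pf 0 = fun _ => (1 : ℂ) := funext Pf_zero
    rw [this]
    simp [logDeriv]
  | cons ρ s ih =>
    have : Pf (ρ ::ₘ s) = fun z => (z - ρ) * Pf s z := funext (Pf_cons ρ s)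
    have hz1 : δ ≤ ‖z - ρ‖ := h ρ (Multiset.mem_cons_self ρ s)
    have hz : z - ρ ≠ 0 := norm_pos_iff.1 (hδ.trans_le hz1)
    have hP : Pf s z ≠ 0 := Pf_ne_zero fun ρ' h' => by
      have := h ρ' (Multiset.mem_cons_of_mem h')
      intro he
      rw [he, sub_self, norm_zero] at this
      linarith
    have e1 : logDeriv (fun z => (z - ρ) * Pf s z) z =
        logDeriv (fun z => z - ρ) z + logDeriv (Pf s) z :=
      logDeriv_mul z hz hP (differentiableAt_id.sub_const ρ) (Pf_diff s z)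
    rw [this, e1, Multiset.card_cons]
    have e2 : logDeriv (fun z => z - ρ) z = 1 / (z - ρ) := by
      rw [logDeriv_apply]
      congr 1
      simp
    have h3 := ih fun ρ' h' => h ρ' (Multiset.mem_cons_of_mem h')
    calc ‖logDeriv (fun z => z - ρ) z + logDeriv (Pf s) z‖
        ≤ ‖logDeriv (fun z => z - ρ) z‖ + ‖logDeriv (Pf s) z‖ := norm_add_le _ _
      _ ≤ 1 / δ + (Multiset.card s : ℝ) / δ := by
          refine add_le_add ?_ h3
          rw [e2, norm_div, norm_one]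
          exact one_div_le_one_div_of_le hδ hz1
      _ = ((Multiset.card s + 1 : ℕ) : ℝ) / δ := by push_cast; ring

lemma analytic_dslope {f : ℂ → ℂ} {K : Set ℂ} (hf : AnalyticOnNhd ℂ f K) {ρ : ℂ}
    (hρ : AnalyticAt ℂ f ρ) : AnalyticOnNhd ℂ (dslope f ρ) K := by
  intro z hz
  by_cases h : z = ρ
  · subst h
    obtain ⟨U, hU, hUd⟩ := hρ.eventually_analyticAt.exists_mem
    have hd : DifferentiableOn ℂ f U := fun w hw => (hUd w hw).differentiableAt.differentiableWithinAt
    exact ((Complex.differentiableOn_dslope hU).2 hd).analyticAt hU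
  · have h1 : dslope f ρ =ᶠ[𝓝 z] fun w => (w - ρ)⁻¹ * (f w - f ρ) := by
      filter_upwards [isOpen_ne.mem_nhds h] with w hw
      rw [dslope_of_ne _ hw, slope_def_field, div_eq_inv_mul]
    refine AnalyticAt.congr ?_ h1.symm
    exact ((analyticAt_id.sub analyticAt_const).inv (sub_ne_zero.2 h)).mul
      ((hf z hz).sub analyticAt_const)

lemma count_le_mult {f g : ℂ → ℂ} {s : Multiset ℂ} {ρ : ℂ} (hf : AnalyticAt ℂ f ρ)
    (hne : analyticOrderAt f ρ ≠ ⊤) (hg : AnalyticAt ℂ g ρ) (h : ∀ z, f z = Pf s z * g z) :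
    s.count ρ ≤ mult f ρ := by
  have h1 : s = Multiset.replicate (s.count ρ) ρ + s.filter (fun x => ¬ (ρ = x)) := by
    rw [← Multiset.filter_eq]
    exact (Multiset.filter_add_not _ s).symm
  have h2 : ∀ z, Pf s z = (z - ρ) ^ (s.count ρ) * Pf (s.filter (fun x => ¬ (ρ = x))) z := by
    intro z
    conv_lhs => rw [h1]
    unfold Pf
    rw [Multiset.map_add, Multiset.prod_add, Multiset.map_replicate, Multiset.prod_replicate]
  have h3 : (s.count ρ : ℕ∞) ≤ analyticOrderAt f ρ := by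
    rw [natCast_le_analyticOrderAt hf]
    refine ⟨fun z => Pf (s.filter (fun x => ¬ (ρ = x))) z * g z, ?_, ?_⟩
    · exact ((Pf_diff _).analyticAt ρ).mul hg
    · filter_upwards with z
      rw [h z, h2 z, smul_eq_mul, mul_assoc]
  unfold mult
  rw [← Nat.cast_analyticOrderNatAt hne] at h3
  exact_mod_cast h3

/-- extraction of all zeros in the closed ball of radius `r` -/
lemma extract {f : ℂ → ℂ} {c : ℂ} {r R M : ℝ} (hr : 0 < r) (hrR : r < R) (hM : 1 ≤ M)
    (hf : AnalyticOnNhd ℂ f (closedBall c R)) (hc : f c ≠ 0)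
    (hb : ∀ z ∈ closedBall c R, ‖f z‖ ≤ M) :
    ∃ (s : Multiset ℂ) (g : ℂ → ℂ), (∀ ρ ∈ s, ρ ∈ closedBall c r ∧ f ρ = 0) ∧
      AnalyticOnNhd ℂ g (closedBall c R) ∧ (∀ z, f z = Pf s z * g z) ∧
      (∀ z ∈ closedBall c r, g z ≠ 0) ∧
      (Multiset.card s : ℝ) ≤ Real.log (M / ‖f c‖) / Real.log (R / r) := by
  classical
  have hR : 0 < R := hr.trans hrR
  have hK : IsPreconnected (closedBall c R) := (convex_closedBall c R).isPreconnected
  have hcR : c ∈ closedBall c R := mem_closedBall_self hR.le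
  have hsub : closedBall c r ⊆ closedBall c R := closedBall_subset_closedBall hrR.le
  -- the predicate
  let Q : ℕ → Prop := fun n => ∃ (s : Multiset ℂ) (g : ℂ → ℂ), Multiset.card s = n ∧
    (∀ ρ ∈ s, ρ ∈ closedBall c r) ∧ AnalyticOnNhd ℂ g (closedBall c R) ∧ (∀ z, f z = Pf s z * g z)
  have hcard : ∀ (s : Multiset ℂ) (g : ℂ → ℂ), (∀ ρ ∈ s, ρ ∈ closedBall c r) →
      AnalyticOnNhd ℂ g (closedBall c R) → (∀ z, f z = Pf s z * g z) →
      (Multiset.card s : ℝ) ≤ Real.log (M / ‖f c‖) / Real.log (R / r) := by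
    intro s g hs hg hfg
    refine le_trans ?_ (jensen_mult hr hrR hM hf hc hb s.toFinset
      fun z hz => hs z (Multiset.mem_toFinset.1 hz))
    have h1 : Multiset.card s = ∑ z ∈ s.toFinset, s.count z := (Multiset.toFinset_sum_count_eq s).symm
    rw [h1]
    push_cast
    refine Finset.sum_le_sum fun z hz => ?_
    have hz' := hsub (hs z (Multiset.mem_toFinset.1 hz))
    exact_mod_cast count_le_mult (hf z hz') (order_ne_top hK hf hcR hc hz') (hg z hz') hfg
  have hQ0 : Q 0 := ⟨0, f, by simp, by simp, hf, fun z => by rw [Pf_zero, one_mul]⟩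
  by_contra hcon
  have hstep : ∀ n, Q n → Q (n + 1) := by
    rintro n ⟨s, g, hn, hs, hg, hfg⟩
    by_cases hz : ∀ z ∈ closedBall c r, g z ≠ 0
    · exfalso
      refine hcon ⟨s, g, fun ρ hρ => ⟨hs ρ hρ, ?_⟩, hg, hfg, hz, hcard s g hs hg hfg⟩
      rw [hfg ρ]
      have : Pf s ρ = 0 := by
        obtain ⟨t, rfl⟩ := Multiset.exists_cons_of_mem hρ
        rw [Pf_cons, sub_self, zero_mul]
      rw [this, zero_mul]
    · push Not at hz
      obtain ⟨ρ, hρ, hgρ⟩ := hz
      refine ⟨ρ ::ₘ s, dslope g ρ, by rw [Multiset.card_cons, hn], ?_,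
        analytic_dslope hg (hg ρ (hsub hρ)), ?_⟩
      · intro x hx
        rw [Multiset.mem_cons] at hx
        rcases hx with rfl | hx
        · exact hρ
        · exact hs x hx
      · intro z
        have h1 := sub_smul_dslope g ρ z
        rw [hgρ, sub_zero, smul_eq_mul] at h1
        rw [hfg z, Pf_cons, ← h1]
        ring
  have hall : ∀ n, Q n := fun n => Nat.rec hQ0 hstep n
  obtain ⟨n, hn⟩ := exists_nat_gt (Real.log (M / ‖f c‖) / Real.log (R / r))
  obtain ⟨s, g, h1, h2, h3, h4⟩ := hall n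
  have := hcard s g h2 h3 h4
  rw [h1] at this
  linarith

/-- Borel-Caratheodory for the logarithmic derivative of a zero free function -/
lemma logDeriv_zero_free {g : ℂ → ℂ} {c : ℂ} {r r1 r2 B : ℝ} (hr2 : 0 < r2) (h21 : r2 < r1)
    (h1r : r1 < r) (hB : 0 ≤ B)
    (hg : AnalyticOnNhd ℂ g (closedBall c r)) (hg0 : ∀ z ∈ closedBall c r, g z ≠ 0)
    (hb : ∀ z ∈ closedBall c r, ‖g z‖ ≤ Real.exp B * ‖g c‖) {z : ℂ} (hz : z ∈ closedBall c r2) :
    ‖logDeriv g z‖ ≤ 2 * (B + 1) * r1 / (r - r1) / (r1 - r2) := by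
  have hr : 0 < r := hr2.trans (h21.trans h1r)
  have hcr : c ∈ ball c r := mem_ball_self hr
  have hd : DifferentiableOn ℂ (logDeriv g) (ball c r) := by
    intro w hw
    have hw' := ball_subset_closedBall hw
    have h1 : AnalyticAt ℂ (logDeriv g) w := (hg w hw').deriv.div (hg w hw') (hg0 w hw')
    exact h1.differentiableAt.differentiableWithinAt
  obtain ⟨h, hhc, hh⟩ := hd.isExactOn_ball.with_val_at c 0
  -- g = g c * exp h
  have hconst : ∀ w ∈ ball c r, g w * cexp (-h w) = g c := by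
    intro w hw
    have hderiv : ∀ x ∈ ball c r, HasDerivAt (fun y => g y * cexp (-h y)) 0 x := by
      intro x hx
      have hx' := ball_subset_closedBall hx
      have e1 : HasDerivAt g (deriv g x) x := (hg x hx').differentiableAt.hasDerivAt
      have e2 : HasDerivAt (fun y => cexp (-h y)) (cexp (-h x) * (-(logDeriv g x))) x :=
        ((hh x hx).neg).cexp
      have e3 : HasDerivAt (fun y => g y * cexp (-h y))
          (deriv g x * cexp (-h x) + g x * (cexp (-h x) * (-(logDeriv g x)))) x := e1.mul e2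
      have e4 : deriv g x * cexp (-h x) + g x * (cexp (-h x) * (-(logDeriv g x))) = 0 := by
        have := hg0 x hx'
        rw [logDeriv_apply]
        field_simp
        ring
      rwa [e4] at e3
    have hcv : Convex ℝ (ball c r) := convex_ball c r
    have := hcv.is_const_of_fderivWithin_eq_zero (𝕜 := ℂ) (f := fun y => g y * cexp (-h y))
      (fun x hx => (hderiv x hx).differentiableAt.differentiableWithinAt)
      (fun x hx => by
        have h5 := (hderiv x hx).hasFDerivAt.hasFDerivWithinAt (s := ball c r)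
        rw [h5.fderivWithin (isOpen_ball.uniqueDiffWithinAt hx)]
        ext; simp) hw hcr
    simp only [hhc, neg_zero, Complex.exp_zero, mul_one] at this
    exact this
  have hgc : 0 < ‖g c‖ := norm_pos_iff.2 (hg0 c (mem_closedBall_self hr.le))
  have hre : ∀ w ∈ ball c r, (h w).re ≤ B + 1 := by
    intro w hw
    have h1 := hconst w hw
    have h2 : ‖g w‖ * Real.exp (-(h w).re) = ‖g c‖ := by
      rw [← h1, norm_mul, Complex.norm_exp]
      simp
    have h3 := hb w (ball_subset_closedBall hw)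
    have h4 : ‖g c‖ ≤ Real.exp B * ‖g c‖ * Real.exp (-(h w).re) := by
      calc ‖g c‖ = ‖g w‖ * Real.exp (-(h w).re) := h2.symm
        _ ≤ _ := mul_le_mul_of_nonneg_right h3 (Real.exp_pos _).le
    have h5 : 1 ≤ Real.exp B * Real.exp (-(h w).re) := by
      by_contra hcon
      push Not at hcon
      nlinarith
    rw [← Real.exp_add, Real.one_le_exp_iff] at h5
    linarith
  -- bound on h
  have hbound : ∀ w ∈ closedBall c r1, ‖h w‖ ≤ 2 * (B + 1) * r1 / (r - r1) := by
    intro w hw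
    have hw1 : ‖w - c‖ ≤ r1 := by rwa [mem_closedBall, dist_eq_norm] at hw
    have hw2 : w - c ∈ ball (0 : ℂ) r := by rw [mem_ball_zero_iff]; linarith
    have hmap : ∀ x : ℂ, x ∈ ball (0 : ℂ) r → c + x ∈ ball c r := by
      intro x hx
      rw [mem_ball_zero_iff] at hx
      rw [mem_ball, dist_eq_norm, add_sub_cancel_left]
      exact hx
    have hbc := Complex.borelCaratheodory_zero (f := fun x => h (c + x)) (M := B + 1) (R := r)
      (z := w - c) (by linarith)
      (fun x hx => by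
        have h1 := (hh (c + x) (hmap x hx)).differentiableAt
        have h2 : DifferentiableAt ℂ (fun y : ℂ => c + y) x := by fun_prop
        exact (DifferentiableAt.comp (g := h) (f := fun y : ℂ => c + y) x h1 h2).differentiableWithinAt)
      (fun x hx => hre (c + x) (hmap x hx)) hr hw2 (by simp [hhc])
    simp only [add_sub_cancel] at hbc
    refine hbc.trans ?_
    have h6 : 0 < r - r1 := by linarith
    have h7 : r - r1 ≤ r - ‖w - c‖ := by linarith
    have hr1 : 0 < r1 := by linarith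
    exact div_le_div₀ (by positivity) (by gcongr) h6 h7
  -- Cauchy estimate
  have hz1 : ‖z - c‖ ≤ r2 := by rwa [mem_closedBall, dist_eq_norm] at hz
  have hδ : 0 < r1 - r2 := by linarith
  have hsub : closedBall z (r1 - r2) ⊆ closedBall c r1 := by
    intro w hw
    rw [mem_closedBall, dist_eq_norm] at hw ⊢
    calc ‖w - c‖ = ‖(w - z) + (z - c)‖ := by congr 1; ring
      _ ≤ ‖w - z‖ + ‖z - c‖ := norm_add_le _ _
      _ ≤ r1 := by linarith
  have hsub2 : closedBall c r1 ⊆ ball c r := closedBall_subset_ball h1r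
  have hzb : z ∈ ball c r := hsub2 (hsub (mem_closedBall_self hδ.le))
  have hdc : DiffContOnCl ℂ h (ball z (r1 - r2)) := by
    apply DifferentiableOn.diffContOnCl
    intro w hw
    rw [closure_ball _ hδ.ne'] at hw
    exact (hh w (hsub2 (hsub hw))).differentiableAt.differentiableWithinAt
  have hcau := Complex.norm_deriv_le_of_forall_mem_sphere_norm_le (c := z) (R := r1 - r2)
    (C := 2 * (B + 1) * r1 / (r - r1)) (f := h) hδ hdc
    (fun w hw => hbound w (hsub (sphere_subset_closedBall hw)))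
  rwa [(hh z hzb).deriv] at hcau

/-- Landau's lemma: log derivative bounded in terms of the distance to the nearby zeros -/
lemma landau {f : ℂ → ℂ} {c : ℂ} {r r1 r2 R M : ℝ} (hr2 : 0 < r2) (h21 : r2 < r1)
    (h1r : r1 < r) (hrR : r < R) (hRr : R ≤ 2 * r) (hM : 1 ≤ M) (hMf : ‖f c‖ ≤ M)
    (hf : AnalyticOnNhd ℂ f (closedBall c R)) (hc : f c ≠ 0)
    (hb : ∀ z ∈ closedBall c R, ‖f z‖ ≤ M) :
    ∀ z ∈ closedBall c r2, ∀ δ : ℝ, 0 < δ → (∀ ρ ∈ closedBall c r, f ρ = 0 → δ ≤ ‖z - ρ‖) →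
      f z ≠ 0 ∧ ‖deriv f z / f z‖ ≤ Real.log (M / ‖f c‖) / Real.log (R / r) / δ +
        2 * (Real.log (M / ‖f c‖) + Real.log (M / ‖f c‖) / Real.log (R / r) *
          Real.log (r / (R - r)) + 1) * r1 / (r - r1) / (r1 - r2) := by
  have hr : 0 < r := by linarith
  have hR : 0 < R := by linarith
  obtain ⟨s, g, hs, hg, hfg, hg0, hcard⟩ := extract hr hrR hM hf hc hb
  intro z hz δ hδ hdist
  have hzr : z ∈ closedBall c r := closedBall_subset_closedBall (by linarith) hz
  have hzR : z ∈ closedBall c R := closedBall_subset_closedBall hrR.le hzr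
  have hcr : c ∈ closedBall c r := mem_closedBall_self hr.le
  have hcR : c ∈ closedBall c R := mem_closedBall_self hR.le
  have hδs : ∀ ρ ∈ s, δ ≤ ‖z - ρ‖ := fun ρ hρ => hdist ρ (hs ρ hρ).1 (hs ρ hρ).2
  have hPz : Pf s z ≠ 0 := Pf_ne_zero fun ρ hρ he => by
    have := hδs ρ hρ
    rw [he, sub_self, norm_zero] at this
    linarith
  have hfz : f z ≠ 0 := by rw [hfg z]; exact mul_ne_zero hPz (hg0 z hzr)
  refine ⟨hfz, ?_⟩
  have hfc : 0 < ‖f c‖ := norm_pos_iff.2 hc
  set n := Multiset.card s with hn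
  have hlogM : 0 ≤ Real.log (M / ‖f c‖) := Real.log_nonneg (by rw [le_div_iff₀ hfc]; linarith)
  have hRr0 : 0 < R - r := by linarith
  have hq : 1 ≤ r / (R - r) := by rw [le_div_iff₀ hRr0]; linarith
  have hlogq : 0 ≤ Real.log (r / (R - r)) := Real.log_nonneg hq
  -- bounds for g
  have hgsphere : ∀ w ∈ sphere c R, ‖g w‖ ≤ M / (R - r) ^ n := by
    intro w hw
    have hwR := sphere_subset_closedBall hw
    have h1 : (R - r) ^ n ≤ ‖Pf s w‖ := Pf_norm_ge hRr0.le fun ρ hρ => by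
      have h2 := (hs ρ hρ).1
      rw [mem_closedBall, dist_eq_norm] at h2
      rw [mem_sphere, dist_eq_norm] at hw
      have h3 : ‖w - c‖ ≤ ‖w - ρ‖ + ‖ρ - c‖ := by
        calc ‖w - c‖ = ‖(w - ρ) + (ρ - c)‖ := by congr 1; ring
          _ ≤ _ := norm_add_le _ _
      linarith
    rw [le_div_iff₀ (by positivity)]
    calc ‖g w‖ * (R - r) ^ n ≤ ‖g w‖ * ‖Pf s w‖ := mul_le_mul_of_nonneg_left h1 (norm_nonneg _)
      _ = ‖f w‖ := by rw [hfg w, norm_mul, mul_comm]
      _ ≤ M := hb w hwR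
  have hgball : ∀ w ∈ closedBall c R, ‖g w‖ ≤ M / (R - r) ^ n := by
    intro w hw
    refine Complex.norm_le_of_forall_mem_frontier_norm_le (U := ball c R) isBounded_ball ?_ ?_ ?_
    · apply DifferentiableOn.diffContOnCl
      rw [closure_ball c hR.ne']
      exact fun x hx => (hg x hx).differentiableAt.differentiableWithinAt
    · intro x hx
      rw [frontier_ball c hR.ne'] at hx
      exact hgsphere x hx
    · rwa [closure_ball c hR.ne']
  have hgc : ‖f c‖ / r ^ n ≤ ‖g c‖ := by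
    rw [div_le_iff₀ (by positivity)]
    have h1 : ‖Pf s c‖ ≤ r ^ n := Pf_norm_le fun ρ hρ => by
      have h2 := (hs ρ hρ).1
      rw [mem_closedBall, dist_eq_norm, norm_sub_rev] at h2
      exact h2
    calc ‖f c‖ = ‖g c‖ * ‖Pf s c‖ := by rw [hfg c, norm_mul, mul_comm]
      _ ≤ ‖g c‖ * r ^ n := mul_le_mul_of_nonneg_left h1 (norm_nonneg _)
  set B : ℝ := Real.log (M / ‖f c‖) + n * Real.log (r / (R - r)) with hB
  have hB0 : 0 ≤ B := by positivity
  have hexpB : Real.exp B = M / ‖f c‖ * (r / (R - r)) ^ n := by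
    rw [hB, Real.exp_add, Real.exp_log (by positivity), Real.exp_nat_mul,
      Real.exp_log (by positivity)]
  have hgb : ∀ w ∈ closedBall c r, ‖g w‖ ≤ Real.exp B * ‖g c‖ := by
    intro w hw
    refine (hgball w (closedBall_subset_closedBall hrR.le hw)).trans ?_
    rw [hexpB]
    calc M / (R - r) ^ n = M / ‖f c‖ * (r / (R - r)) ^ n * (‖f c‖ / r ^ n) := by
          rw [div_pow]; field_simp
      _ ≤ _ := mul_le_mul_of_nonneg_left hgc (by positivity)
  have hlg := logDeriv_zero_free hr2 h21 h1r hB0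
    (hg.mono (closedBall_subset_closedBall hrR.le)) hg0 hgb hz
  have hlP := Pf_logDeriv (s := s) hδ hδs
  have heq : deriv f z / f z = logDeriv (Pf s) z + logDeriv g z := by
    have h1 : f = fun w => Pf s w * g w := funext hfg
    rw [← logDeriv_apply]
    conv_lhs => rw [h1]
    exact logDeriv_mul z hPz (hg0 z hzr) (Pf_diff s z) (hg z hzR).differentiableAt
  rw [heq]
  refine (norm_add_le _ _).trans (add_le_add (hlP.trans ?_) (hlg.trans ?_))
  · exact div_le_div_of_nonneg_right hcard hδ.le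
  · have h8 : B ≤ Real.log (M / ‖f c‖) + Real.log (M / ‖f c‖) / Real.log (R / r) *
          Real.log (r / (R - r)) := by
      rw [hB]
      have := mul_le_mul_of_nonneg_right hcard hlogq
      linarith
    have h9 : 0 < r - r1 := by linarith
    have h10 : 0 < r1 - r2 := by linarith
    have h11 : 0 < r1 := by linarith
    gcongr


/-! ### Applications to `GoodL` functions -/

lemma log_le_two_log {t : ℝ} (ht : 3 ≤ t) : Real.log (t + 2) ≤ 2 * Real.log t := by
  have h0 : 0 < t := by linarith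
  have h1 : Real.log (t + 2) ≤ Real.log (t ^ 2) := Real.log_le_log (by linarith) (by nlinarith)
  rw [Real.log_pow] at h1
  exact_mod_cast h1

lemma one_le_log {t : ℝ} (ht : 3 ≤ t) : 1 ≤ Real.log t := by
  rw [Real.le_log_iff_exp_le (by linarith)]
  linarith [Real.exp_one_lt_d9]

/-- data in the ball of radius 1.9 about `2 + it` -/
lemma ball_data {F : ℂ → ℂ} (hF : GoodL F) : ∃ K : ℝ, 0 < K ∧ ∀ t : ℝ, 3 ≤ t →
    ∃ M : ℝ, 1 ≤ M ∧ AnalyticOnNhd ℂ F (closedBall (⟨2, t⟩ : ℂ) 1.9) ∧ F ⟨2, t⟩ ≠ 0 ∧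
      (∀ z ∈ closedBall (⟨2, t⟩ : ℂ) 1.9, ‖F z‖ ≤ M) ∧ ‖F ⟨2, t⟩‖ ≤ M ∧
      0 ≤ Real.log (M / ‖F ⟨2, t⟩‖) ∧ Real.log (M / ‖F ⟨2, t⟩‖) ≤ K * Real.log t := by
  obtain ⟨C, A, hC, hA, hg⟩ := hF.growth
  obtain ⟨c, hc, hl⟩ := hF.lower
  refine ⟨|Real.log ((C + 1) / c)| + 2 * A, by positivity, fun t ht => ?_⟩
  have hball : ∀ z ∈ closedBall (⟨2, t⟩ : ℂ) 1.9, (1 / 16 : ℝ) ≤ z.re ∧ z.re ≤ 4 ∧ 1 ≤ z.im ∧
      z.im ≤ t + 2 := by
    intro z hz
    rw [mem_closedBall, dist_eq_norm] at hz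
    have h1 := (Complex.abs_re_le_norm (z - ⟨2, t⟩)).trans hz
    have h2 := (Complex.abs_im_le_norm (z - ⟨2, t⟩)).trans hz
    simp only [sub_re, sub_im] at h1 h2
    rw [abs_le] at h1 h2
    refine ⟨by norm_num at h1 ⊢; linarith [h1.1], by norm_num at h1 ⊢; linarith [h1.2],
      by norm_num at h2 ⊢; linarith [h2.1], by norm_num at h2 ⊢; linarith [h2.2]⟩
  have hc0 : c ≤ ‖F ⟨2, t⟩‖ := hl t (by linarith)
  have hFc : 0 < ‖F ⟨2, t⟩‖ := hc.trans_le hc0
  have hM1 : 1 ≤ (C + 1) * (t + 2) ^ A := by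
    have : 1 ≤ (t + 2) ^ A := Real.one_le_rpow (by linarith) hA.le
    nlinarith
  have hb : ∀ z ∈ closedBall (⟨2, t⟩ : ℂ) 1.9, ‖F z‖ ≤ (C + 1) * (t + 2) ^ A := by
    intro z hz
    obtain ⟨h1, h2, h3, h4⟩ := hball z hz
    refine (hg z h1 h2 h3).trans ?_
    have : z.im ^ A ≤ (t + 2) ^ A := Real.rpow_le_rpow (by linarith) h4 hA.le
    have h5 : 0 ≤ (t + 2) ^ A := by positivity
    nlinarith
  have hMc : ‖F ⟨2, t⟩‖ ≤ (C + 1) * (t + 2) ^ A := hb _ (mem_closedBall_self (by norm_num))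
  refine ⟨(C + 1) * (t + 2) ^ A, hM1, ?_, norm_pos_iff.1 hFc, hb, hMc, ?_, ?_⟩
  · intro z hz
    exact hF.an z (by linarith [(hball z hz).2.2.1])
  · exact Real.log_nonneg (by rw [le_div_iff₀ hFc]; linarith)
  · have h1 : (C + 1) * (t + 2) ^ A / ‖F ⟨2, t⟩‖ ≤ (C + 1) / c * (t + 2) ^ A := by
      rw [div_mul_eq_mul_div]
      exact div_le_div_of_nonneg_left (by positivity) hc hc0
    have h2 : Real.log ((C + 1) * (t + 2) ^ A / ‖F ⟨2, t⟩‖) ≤
        Real.log ((C + 1) / c * (t + 2) ^ A) := Real.log_le_log (by positivity) h1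
    rw [Real.log_mul (by positivity) (by positivity), Real.log_rpow (by linarith)] at h2
    have h3 := log_le_two_log ht
    have h4 := one_le_log ht
    have h5 : Real.log ((C + 1) / c) ≤ |Real.log ((C + 1) / c)| * Real.log t := by
      have := le_abs_self (Real.log ((C + 1) / c))
      have h6 := abs_nonneg (Real.log ((C + 1) / c))
      nlinarith
    have h6 : A * Real.log (t + 2) ≤ A * (2 * Real.log t) := mul_le_mul_of_nonneg_left h3 hA.le
    linarith

lemma reflect_re (s : ℂ) : (1 - (starRingEnd ℂ) s).re = 1 - s.re := by simp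
lemma reflect_im (s : ℂ) : (1 - (starRingEnd ℂ) s).im = s.im := by simp

lemma reflect_inj : Function.Injective (fun s : ℂ => 1 - (starRingEnd ℂ) s) := by
  intro a b h
  have h1 : (starRingEnd ℂ) a = (starRingEnd ℂ) b := by
    have := h
    simp only at this
    exact sub_right_injective this
  exact (starRingEnd ℂ).injective h1

end Loc

open Loc

theorem zset_finite {F : ℂ → ℂ} (hF : GoodL F) (T1 T2 : ℝ) (h : 1 ≤ T1) :
    (zset F T1 T2).Finite := by
  by_contra hinf
  have hinf : (zset F T1 T2).Infinite := hinf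
  have hcomp : IsCompact (Icc (0 : ℝ) 1 ×ℂ Icc T1 T2) := isCompact_Icc.reProdIm isCompact_Icc
  have hsub : zset F T1 T2 ⊆ Icc (0 : ℝ) 1 ×ℂ Icc T1 T2 := by
    rintro s ⟨h1, h2, h3, h4, -⟩
    exact ⟨⟨h1.le, h2.le⟩, ⟨h3.le, h4⟩⟩
  obtain ⟨x, hx, hacc⟩ := hinf.exists_accPt_of_subset_isCompact hcomp hsub
  have hU : IsPreconnected {s : ℂ | 0 < s.im} := (convex_halfSpace_im_gt 0).isPreconnected
  have hxU : x ∈ {s : ℂ | 0 < s.im} := by
    have : T1 ≤ x.im := hx.2.1
    simp only [mem_setOf_eq]; linarith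
  have hfreq : ∃ᶠ z in 𝓝[≠] x, F z = 0 := by
    rw [accPt_iff_frequently_nhdsNE] at hacc
    exact hacc.mono fun z hz => hz.2.2.2.2
  have hz := AnalyticOnNhd.eqOn_zero_of_preconnected_of_frequently_eq_zero
    (f := F) (U := {s : ℂ | 0 < s.im}) (fun s hs => hF.an s hs) hU hxU hfreq
  have h2 : F ⟨2, 1⟩ = 0 := hz (by simp only [mem_setOf_eq]; norm_num)
  obtain ⟨c, hc, hl⟩ := hF.lower
  have h3 := hl 1 le_rfl
  rw [h2, norm_zero] at h3
  linarith

theorem zcount {F : ℂ → ℂ} (hF : GoodL F) :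
    ∃ C : ℝ, 0 < C ∧ ∀ t : ℝ, 3 ≤ t → (NN F (t - 1) (t + 1) : ℝ) ≤ C * Real.log t := by
  classical
  obtain ⟨K, hK, hdata⟩ := ball_data hF
  have hlog : 0 < Real.log (1.9 / 1.81) := Real.log_pos (by norm_num)
  refine ⟨2 * K / Real.log (1.9 / 1.81), by positivity, fun t ht => ?_⟩
  obtain ⟨M, hM1, han, hF0, hb, -, -, hlogM⟩ := hdata t ht
  have hfin := zset_finite hF (t - 1) (t + 1) (by linarith)
  have hNN : NN F (t - 1) (t + 1) = ∑ s ∈ hfin.toFinset, mult F s := by
    unfold NN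
    exact finsum_mem_eq_finite_toFinset_sum _ hfin
  have key : ∀ S : Finset ℂ, (∀ z ∈ S, 1 / 2 ≤ z.re ∧ z.re < 1 ∧ |z.im - t| ≤ 1) →
      ∑ z ∈ S, (mult F z : ℝ) ≤ K / Real.log (1.9 / 1.81) * Real.log t := by
    intro S hS
    refine (jensen_mult (c := ⟨2, t⟩) (r := 1.81) (R := 1.9) (by norm_num) (by norm_num) hM1 han
      hF0 hb S ?_).trans ?_
    · intro z hz
      obtain ⟨h1, h2, h3⟩ := hS z hz
      rw [mem_closedBall, dist_eq_norm]
      apply abs_le_of_sq_le_sq' _ (by norm_num) |>.2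
      rw [← Complex.normSq_eq_norm_sq, Complex.normSq_apply]
      simp only [sub_re, sub_im]
      rw [abs_le] at h3
      nlinarith
    · rw [div_mul_eq_mul_div]
      exact div_le_div_of_nonneg_right hlogM hlog.le
  rw [hNN]
  push_cast
  rw [← Finset.sum_filter_add_sum_filter_not _ (fun s : ℂ => 1 / 2 ≤ s.re)]
  have h1 := key (hfin.toFinset.filter (fun s : ℂ => 1 / 2 ≤ s.re)) (by
    intro z hz
    simp only [Finset.mem_filter, Set.Finite.mem_toFinset] at hz
    obtain ⟨⟨a1, a2, a3, a4, -⟩, h⟩ := hz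
    exact ⟨h, a2, abs_le.2 ⟨by linarith, by linarith⟩⟩)
  have h2 := key ((hfin.toFinset.filter (fun s : ℂ => ¬ 1 / 2 ≤ s.re)).image
      (fun s : ℂ => 1 - (starRingEnd ℂ) s)) (by
    intro z hz
    simp only [Finset.mem_image, Finset.mem_filter, Set.Finite.mem_toFinset] at hz
    obtain ⟨s, ⟨⟨a1, a2, a3, a4, -⟩, h⟩, rfl⟩ := hz
    rw [reflect_re, reflect_im]
    push Not at h
    exact ⟨by linarith, by linarith, abs_le.2 ⟨by linarith, by linarith⟩⟩)
  rw [Finset.sum_image (fun a _ b _ hab => reflect_inj hab)] at h2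
  have h3 : ∑ s ∈ hfin.toFinset.filter (fun s : ℂ => ¬ 1 / 2 ≤ s.re),
      (mult F (1 - (starRingEnd ℂ) s) : ℝ) =
      ∑ s ∈ hfin.toFinset.filter (fun s : ℂ => ¬ 1 / 2 ≤ s.re), (mult F s : ℝ) := by
    refine Finset.sum_congr rfl fun s hs => ?_
    simp only [Finset.mem_filter, Set.Finite.mem_toFinset] at hs
    obtain ⟨⟨a1, a2, a3, a4, -⟩, h⟩ := hs
    have h5 := hF.symm s a1 a2 (by linarith)
    unfold mult analyticOrderNatAt
    rw [h5]
  rw [h3] at h2
  calc _ ≤ K / Real.log (1.9 / 1.81) * Real.log t + K / Real.log (1.9 / 1.81) * Real.log t :=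
        add_le_add h1 h2
    _ = _ := by ring

namespace Loc

/-- pigeonhole for a point far from a finite set -/
lemma pigeon (Γ : Finset ℝ) (T : ℝ) :
    ∃ U ∈ Set.Icc T (T + 1), ∀ γ ∈ Γ, 1 / (2 * ((Γ.card : ℝ) + 1)) ≤ |U - γ| := by
  by_contra hcon
  push Not at hcon
  set n := Γ.card with hn
  have hn1 : (0 : ℝ) < (n : ℝ) + 1 := by positivity
  let U : Fin (n + 1) → ℝ := fun k => T + (2 * (k : ℝ) + 1) / (2 * ((n : ℝ) + 1))
  have hU : ∀ k, U k ∈ Set.Icc T (T + 1) := by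
    intro k
    have hk : (k : ℝ) ≤ n := by exact_mod_cast Nat.lt_succ_iff.1 k.2
    have hk0 : (0 : ℝ) ≤ k := by positivity
    constructor
    · have : 0 ≤ (2 * (k : ℝ) + 1) / (2 * ((n : ℝ) + 1)) := by positivity
      simp only [U]; linarith
    · have : (2 * (k : ℝ) + 1) / (2 * ((n : ℝ) + 1)) ≤ 1 := by
        rw [div_le_one (by positivity)]; linarith
      simp only [U]; linarith
  choose! f hfΓ hf using fun k => hcon (U k) (hU k)
  have hinj : Function.Injective f := by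
    intro k l hkl
    by_contra hne
    have h1 := hf k
    have h2 := hf l
    rw [← hkl] at h2
    have h3 : |U k - U l| < 1 / ((n : ℝ) + 1) := by
      have : |U k - U l| ≤ |U k - f k| + |U l - f k| := by
        have := abs_sub_le (U k) (f k) (U l)
        rwa [abs_sub_comm (f k) (U l)] at this
      have h4 : 1 / (2 * ((n : ℝ) + 1)) + 1 / (2 * ((n : ℝ) + 1)) = 1 / ((n : ℝ) + 1) := by
        field_simp; norm_num
      linarith
    have h5 : U k - U l = ((k : ℝ) - (l : ℝ)) / ((n : ℝ) + 1) := by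
      simp only [U]
      field_simp
      ring
    rw [h5, abs_div, abs_of_pos hn1, div_lt_div_iff_of_pos_right hn1] at h3
    have h6 : (k : ℤ) ≠ (l : ℤ) := by
      intro h
      apply hne
      apply Fin.ext
      exact_mod_cast h
    have h7 : 1 ≤ |(k : ℤ) - (l : ℤ)| := Int.one_le_abs (sub_ne_zero.2 h6)
    have h8 : (1 : ℝ) ≤ |(k : ℝ) - (l : ℝ)| := by exact_mod_cast h7
    linarith
  have hcard : Fintype.card (Fin (n + 1)) ≤ Γ.card := by
    rw [← Finset.card_univ]
    exact Finset.card_le_card_of_injOn f (fun k _ => hfΓ k) hinj.injOn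
  rw [Fintype.card_fin] at hcard
  omega

lemma mult_pos' {F : ℂ → ℂ} (hF : GoodL F) {s : ℂ} (hs : 0 < s.im) (h0 : F s = 0) :
    1 ≤ mult F s := by
  have hU : IsPreconnected {s : ℂ | 0 < s.im} := (convex_halfSpace_im_gt 0).isPreconnected
  obtain ⟨c, hc, hl⟩ := hF.lower
  have h3 := hl 1 le_rfl
  have h2 : F ⟨2, 1⟩ ≠ 0 := norm_pos_iff.1 (hc.trans_le h3)
  exact (mult_pos (f := F) (K := {s : ℂ | 0 < s.im}) hU (fun s hs => hF.an s hs) (c := ⟨2, 1⟩)
    (by simp only [mem_setOf_eq]; norm_num) h2 hs).2 h0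

/-- the number of distinct zeros is at most the number of zeros with multiplicity -/
lemma card_le_NN {F : ℂ → ℂ} (hF : GoodL F) (T1 T2 : ℝ) (h : 1 ≤ T1) :
    (zset_finite hF T1 T2 h).toFinset.card ≤ NN F T1 T2 := by
  have hfin := zset_finite hF T1 T2 h
  have hNN : NN F T1 T2 = ∑ s ∈ hfin.toFinset, mult F s := by
    unfold NN
    exact finsum_mem_eq_finite_toFinset_sum _ hfin
  rw [hNN, Finset.card_eq_sum_ones]
  refine Finset.sum_le_sum fun s hs => ?_
  rw [Set.Finite.mem_toFinset] at hs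
  exact mult_pos' hF (by linarith [hs.2.2.1]) hs.2.2.2.2

end Loc

theorem good_height {F : ℂ → ℂ} (hF : GoodL F) : ∃ C : ℝ, 0 < C ∧ ∀ T : ℝ, 3 ≤ T →
    ∃ U ∈ Set.Icc T (T + 1), ∀ σ ∈ Set.Icc (-1 / 2 : ℝ) (3 / 2),
      F (⟨σ, U⟩ : ℂ) ≠ 0 ∧
      ‖deriv F (⟨σ, U⟩ : ℂ) / F (⟨σ, U⟩ : ℂ)‖ ≤ C * (Real.log T) ^ 2 := by
  classical
  obtain ⟨K, hK, hdata⟩ := ball_data hF
  obtain ⟨C0, hC0, hcount⟩ := zcount hF
  obtain ⟨CL, hleft⟩ := hF.left
  set q : ℝ := Real.log (1.9 / 1.8) with hq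
  have hq0 : 0 < q := Real.log_pos (by norm_num)
  set ℓ : ℝ := Real.log (1.8 / (1.9 - 1.8)) with hℓ
  have hℓ0 : 0 < ℓ := Real.log_pos (by norm_num)
  -- the bound on the right
  set D : ℝ := 2 * K / q * (2 * (3 * C0 + 1)) +
    2 * (2 * K + 2 * K / q * ℓ + 1) * 1.7 / (1.8 - 1.7) / (1.7 - 1.5) with hD
  have hD0 : 0 < D := by
    have : (0 : ℝ) < 1.8 - 1.7 := by norm_num
    have : (0 : ℝ) < 1.7 - 1.5 := by norm_num
    positivity
  refine ⟨D + |CL| + 2, by positivity, fun T hT => ?_⟩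
  have hlT : 1 ≤ Real.log T := one_le_log hT
  -- zeros in the window
  have hfin := zset_finite hF (T - 1) (T + 2) (by linarith)
  set Γ : Finset ℝ := hfin.toFinset.image (fun s : ℂ => s.im) with hΓ
  obtain ⟨U, hU, hUΓ⟩ := pigeon Γ T
  have hU1 : T ≤ U := hU.1
  have hU2 : U ≤ T + 1 := hU.2
  have hlU0 : 0 ≤ Real.log U := Real.log_nonneg (by linarith)
  have hlU : Real.log U ≤ 2 * Real.log T :=
    (Real.log_le_log (by linarith) (by linarith)).trans (log_le_two_log hT)
  -- cardinality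
  have hcard : (Γ.card : ℝ) ≤ 3 * C0 * Real.log T := by
    have h1 : Γ.card ≤ hfin.toFinset.card := Finset.card_image_le
    have h2 : hfin.toFinset.card ≤ NN F (T - 1) (T + 1) + NN F ((T + 1) - 1) ((T + 1) + 1) := by
      refine le_trans ?_ (add_le_add (card_le_NN hF (T - 1) (T + 1) (by linarith))
        (card_le_NN hF ((T + 1) - 1) ((T + 1) + 1) (by linarith)))
      refine le_trans (Finset.card_le_card ?_) (Finset.card_union_le _ _)
      intro s hs
      simp only [Finset.mem_union, Set.Finite.mem_toFinset] at hs ⊢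
      obtain ⟨a1, a2, a3, a4, a5⟩ := hs
      by_cases h : s.im ≤ T + 1
      · exact Or.inl ⟨a1, a2, a3, h, a5⟩
      · push Not at h
        exact Or.inr ⟨a1, a2, by linarith, by linarith, a5⟩
    have h3 := hcount T hT
    have h4 := hcount (T + 1) (by linarith)
    have h5 : Real.log (T + 1) ≤ 2 * Real.log T :=
      (Real.log_le_log (by linarith) (by linarith)).trans (log_le_two_log hT)
    have h6 : (Γ.card : ℝ) ≤ (NN F (T - 1) (T + 1) : ℝ) + NN F ((T + 1) - 1) ((T + 1) + 1) := by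
      exact_mod_cast h1.trans h2
    have h7 : C0 * Real.log (T + 1) ≤ C0 * (2 * Real.log T) := mul_le_mul_of_nonneg_left h5 hC0.le
    linarith
  -- right half
  have hright : ∀ σ ∈ Set.Icc (1 / 2 : ℝ) (3 / 2), F (⟨σ, U⟩ : ℂ) ≠ 0 ∧
      ‖deriv F (⟨σ, U⟩ : ℂ) / F (⟨σ, U⟩ : ℂ)‖ ≤ D * (Real.log T) ^ 2 := by
    intro σ hσ
    obtain ⟨M, hM1, han, hF0, hb, hMc, hL0, hLM⟩ := hdata U (by linarith)
    set L := Real.log (M / ‖F ⟨2, U⟩‖) with hL
    have hδ : (0 : ℝ) < 1 / (2 * ((Γ.card : ℝ) + 1)) := by positivity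
    have hland := landau (f := F) (c := ⟨2, U⟩) (r := 1.8) (r1 := 1.7) (r2 := 1.5) (R := 1.9)
      (M := M) (by norm_num) (by norm_num) (by norm_num) (by norm_num) (by norm_num) hM1 hMc han
      hF0 hb ⟨σ, U⟩ (by
        rw [mem_closedBall, dist_eq_norm]
        apply abs_le_of_sq_le_sq' _ (by norm_num) |>.2
        rw [← Complex.normSq_eq_norm_sq, Complex.normSq_apply]
        simp only [sub_re, sub_im]
        have := hσ.1
        have := hσ.2
        nlinarith) (1 / (2 * ((Γ.card : ℝ) + 1))) hδ (by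
        intro ρ hρ hFρ
        have h1 : |U - ρ.im| ≤ ‖(⟨σ, U⟩ : ℂ) - ρ‖ := by
          have := Complex.abs_im_le_norm ((⟨σ, U⟩ : ℂ) - ρ)
          simpa using this
        refine le_trans ?_ h1
        rw [mem_closedBall, dist_eq_norm] at hρ
        have h2 := (Complex.abs_re_le_norm (ρ - ⟨2, U⟩)).trans hρ
        have h3 := (Complex.abs_im_le_norm (ρ - ⟨2, U⟩)).trans hρ
        simp only [sub_re, sub_im] at h2 h3
        rw [abs_le] at h2 h3
        have hre0 : 0 < ρ.re := by norm_num at h2 ⊢; linarith [h2.1]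
        have him1 : 1 ≤ ρ.im := by norm_num at h3 ⊢; linarith [h3.1]
        have hre1 : ρ.re < 1 := by
          by_contra hcon
          push Not at hcon
          exact hF.nzr ρ hcon him1 hFρ
        by_cases hw : T - 1 < ρ.im ∧ ρ.im ≤ T + 2
        · refine hUΓ ρ.im ?_
          rw [hΓ, Finset.mem_image]
          exact ⟨ρ, by rw [Set.Finite.mem_toFinset]; exact ⟨hre0, hre1, hw.1, hw.2, hFρ⟩, rfl⟩
        · have h5 : 1 ≤ |U - ρ.im| := by
            rw [not_and_or] at hw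
            push Not at hw
            rcases hw with hw | hw
            · rw [le_abs]; left; linarith
            · rw [le_abs]; right; linarith
          refine le_trans ?_ h5
          rw [div_le_one (by positivity)]
          have : (0 : ℝ) ≤ Γ.card := by positivity
          linarith)
    refine ⟨hland.1, hland.2.trans ?_⟩
    rw [← hL, ← hq, ← hℓ]
    have hL2 : L ≤ 2 * K * Real.log T := by
      have := mul_le_mul_of_nonneg_left hlU hK.le
      linarith
    have e1 : L / q / (1 / (2 * ((Γ.card : ℝ) + 1))) = L / q * (2 * ((Γ.card : ℝ) + 1)) := by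
      rw [div_div_eq_mul_div, div_one]
    rw [e1]
    have e2 : 2 * ((Γ.card : ℝ) + 1) ≤ 2 * (3 * C0 + 1) * Real.log T := by nlinarith
    have e3 : L / q ≤ 2 * K / q * Real.log T := by
      rw [div_mul_eq_mul_div]
      exact div_le_div_of_nonneg_right hL2 hq0.le
    have e4 : L / q * (2 * ((Γ.card : ℝ) + 1)) ≤
        (2 * K / q * Real.log T) * (2 * (3 * C0 + 1) * Real.log T) :=
      mul_le_mul e3 e2 (by positivity) (by positivity)
    have e5 : L + L / q * ℓ + 1 ≤ (2 * K + 2 * K / q * ℓ + 1) * (Real.log T) ^ 2 := by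
      have f1 : Real.log T ≤ (Real.log T) ^ 2 := by nlinarith
      have f2 : L / q * ℓ ≤ 2 * K / q * Real.log T * ℓ := mul_le_mul_of_nonneg_right e3 hℓ0.le
      have f3 : (0 : ℝ) ≤ 2 * K / q * ℓ := by positivity
      have f4 : 2 * K * Real.log T ≤ 2 * K * (Real.log T) ^ 2 :=
        mul_le_mul_of_nonneg_left f1 (by positivity)
      have f5 : 2 * K / q * ℓ * Real.log T ≤ 2 * K / q * ℓ * (Real.log T) ^ 2 :=
        mul_le_mul_of_nonneg_left f1 f3
      nlinarith
    have e6 : 2 * (L + L / q * ℓ + 1) * 1.7 / (1.8 - 1.7) / (1.7 - 1.5) ≤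
        2 * ((2 * K + 2 * K / q * ℓ + 1) * (Real.log T) ^ 2) * 1.7 / (1.8 - 1.7) / (1.7 - 1.5) := by
      have g1 : (0 : ℝ) < 1.8 - 1.7 := by norm_num
      have g2 : (0 : ℝ) < 1.7 - 1.5 := by norm_num
      gcongr
    calc _ ≤ (2 * K / q * Real.log T) * (2 * (3 * C0 + 1) * Real.log T) +
        2 * ((2 * K + 2 * K / q * ℓ + 1) * (Real.log T) ^ 2) * 1.7 / (1.8 - 1.7) / (1.7 - 1.5) :=
          add_le_add e4 e6
      _ = D * (Real.log T) ^ 2 := by rw [hD]; ring
  refine ⟨U, hU, fun σ hσ => ?_⟩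
  have hbig : D * (Real.log T) ^ 2 ≤ (D + |CL| + 2) * (Real.log T) ^ 2 := by
    have := abs_nonneg CL
    have h2 : 0 ≤ (Real.log T) ^ 2 := by positivity
    nlinarith
  by_cases hs : 1 / 2 ≤ σ
  · have := hright σ ⟨hs, hσ.2⟩
    exact ⟨this.1, this.2.trans hbig⟩
  · push Not at hs
    have hrf : (1 : ℂ) - (starRingEnd ℂ) (⟨σ, U⟩ : ℂ) = ⟨1 - σ, U⟩ := by
      apply Complex.ext <;> simp
    obtain ⟨g1, g2⟩ := hright (1 - σ) ⟨by linarith, by linarith [hσ.1]⟩
    have hne : F (⟨σ, U⟩ : ℂ) ≠ 0 := by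
      by_cases h0 : σ ≤ 0
      · exact hF.nzl ⟨σ, U⟩ h0 (by simp only; linarith)
      · push Not at h0
        have hsym := hF.symm ⟨σ, U⟩ h0 (by simp only; linarith) (by simp only; linarith)
        rw [hrf] at hsym
        have h1 : AnalyticAt ℂ F (⟨1 - σ, U⟩ : ℂ) := hF.an _ (by simp only; linarith)
        have h2 : AnalyticAt ℂ F (⟨σ, U⟩ : ℂ) := hF.an _ (by simp only; linarith)
        rw [h1.analyticOrderAt_eq_zero.2 g1] at hsym
        exact h2.analyticOrderAt_eq_zero.1 hsym.symm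
    refine ⟨hne, ?_⟩
    have h3 := hleft ⟨σ, U⟩ hσ.1 hs.le (by simp only; linarith) hne
    rw [hrf] at h3
    simp only at h3
    set a := deriv F (⟨σ, U⟩ : ℂ) / F (⟨σ, U⟩ : ℂ) with ha
    set b := deriv F (⟨1 - σ, U⟩ : ℂ) / F (⟨1 - σ, U⟩ : ℂ) with hb
    have h4 : ‖a‖ ≤ CL + Real.log U + ‖b‖ := by
      have h5 : a = (a + (Real.log U : ℂ) + (starRingEnd ℂ) b) - (Real.log U : ℂ) -
          (starRingEnd ℂ) b := by ring
      rw [h5]
      refine (norm_sub_le _ _).trans ?_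
      rw [RCLike.norm_conj]
      refine add_le_add ((norm_sub_le _ _).trans (add_le_add h3 ?_)) le_rfl
      rw [Complex.norm_real, Real.norm_eq_abs, abs_of_nonneg hlU0]
    refine h4.trans ?_
    have h6 : CL ≤ |CL| * (Real.log T) ^ 2 := by
      have := le_abs_self CL
      have h7 := abs_nonneg CL
      have h8 : 1 ≤ (Real.log T) ^ 2 := by nlinarith
      nlinarith
    have h7 : Real.log U ≤ 2 * (Real.log T) ^ 2 := by nlinarith
    linarith

end H370
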